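import Pool.Agent.Y275.BLT.Weak

/-! # The classical Balian-Low theorem for arbitrary lattices -/

set_option autoImplicit false

open Topology Filter Set ComplexConjugate MeasureTheory
open scoped InnerProductSpace ENNReal ContDiff

namespace Pool.Agent.Y275.BLT

variable {d : ℕ}

/-- the lattice -/
def Lm (M : Matrix (Fin d ⊕ Fin d) (Fin d ⊕ Fin d) ℝ) :
    (Fin d ⊕ Fin d → ℤ) →+ V d × V d where
  toFun k := (fun j => Matrix.mulVec M (fun i => ((k i : ℤ) : ℝ)) (Sum.inl j),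
    fun j => Matrix.mulVec M (fun i => ((k i : ℤ) : ℝ)) (Sum.inr j))
  map_zero' := by
    have : (fun i : Fin d ⊕ Fin d => (((0 : Fin d ⊕ Fin d → ℤ) i : ℤ) : ℝ)) = 0 := by
      ext i; simp
    simp only [this, Matrix.mulVec_zero]
    rfl
  map_add' k l := by
    have : (fun i : Fin d ⊕ Fin d => (((k + l) i : ℤ) : ℝ)) =
        (fun i => ((k i : ℤ) : ℝ)) + fun i => ((l i : ℤ) : ℝ) := by
      ext i; simp
    simp only [this, Matrix.mulVec_add]
    rfl

lemma Lm_ae (M : Matrix (Fin d ⊕ Fin d) (Fin d ⊕ Fin d) ℝ) (g : V d → ℂ) (hg : MemLp g 2 volume)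
    (k : Fin d ⊕ Fin d → ℤ) :
    TF (Lm M k) hg.toLp =ᵐ[volume] fun x =>
      Complex.exp (2 * (Real.pi : ℂ) * Complex.I *
              ((∑ j, Matrix.mulVec M (fun i => ((k i : ℤ) : ℝ)) (Sum.inr j) * x j : ℝ) : ℂ)) *
            g (x - fun j => Matrix.mulVec M (fun i => ((k i : ℤ) : ℝ)) (Sum.inl j)) := by
  filter_upwards [TF_ae (Lm M k) hg.toLp, tf_ae (Lm M k).1 (Lm M k).2 hg.coeFn_toLp] with x h1 h2
  rw [h1, h2]
  unfold tf ph
  congr 1
  congr 1
  push_cast
  simp only [Lm, AddMonoidHom.coe_mk, ZeroHom.coe_mk]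
  ring

lemma comm_phase (z w : V d × V d) (f : Hs d) :
    ∃ r : ℂ, ‖r‖ = 1 ∧ TF z (TF w f) = r • TF w (TF z f) := by
  refine ⟨cc z w * (cc w z)⁻¹, ?_, ?_⟩
  · rw [norm_mul, norm_inv, prep.norm_c, prep.norm_c]; norm_num
  · rw [prep.mul, prep.mul, smul_smul, inv_mul_cancel_right₀ (prep.c_ne w z), add_comm]

theorem balian_low (hd : 0 < d) (M : Matrix (Fin d ⊕ Fin d) (Fin d ⊕ Fin d) ℝ)
    (g : (Fin d → ℝ) → ℂ) (hg : MemLp g 2 volume)
    (htot : ∀ h : (Fin d → ℝ) → ℂ, MemLp h 2 volume →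
      (∀ k : Fin d ⊕ Fin d → ℤ,
        ∫ x, (starRingEnd ℂ) (h x) *
          (Complex.exp (2 * (Real.pi : ℂ) * Complex.I *
              ((∑ j, Matrix.mulVec M (fun i => ((k i : ℤ) : ℝ)) (Sum.inr j) * x j : ℝ) : ℂ)) *
            g (x - fun j => Matrix.mulVec M (fun i => ((k i : ℤ) : ℝ)) (Sum.inl j))) = 0) →
      h =ᵐ[volume] 0) {A B : ℝ} (hA : 0 < A) (hB : 0 < B)
    (hR : ∀ (s : Finset (Fin d ⊕ Fin d → ℤ)) (c : (Fin d ⊕ Fin d → ℤ) → ℂ),
        A * ∑ k ∈ s, ‖c k‖ ^ 2 ≤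
          ∫ x, ‖∑ k ∈ s, c k *
            (Complex.exp (2 * (Real.pi : ℂ) * Complex.I *
                ((∑ j, Matrix.mulVec M (fun i => ((k i : ℤ) : ℝ)) (Sum.inr j) * x j : ℝ) : ℂ)) *
              g (x - fun j => Matrix.mulVec M (fun i => ((k i : ℤ) : ℝ)) (Sum.inl j)))‖ ^ 2 ∧
        ∫ x, ‖∑ k ∈ s, c k *
            (Complex.exp (2 * (Real.pi : ℂ) * Complex.I *
                ((∑ j, Matrix.mulVec M (fun i => ((k i : ℤ) : ℝ)) (Sum.inr j) * x j : ℝ) : ℂ)) *
              g (x - fun j => Matrix.mulVec M (fun i => ((k i : ℤ) : ℝ)) (Sum.inl j)))‖ ^ 2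
          ≤ B * ∑ k ∈ s, ‖c k‖ ^ 2)
    (hx : Integrable (fun x : Fin d → ℝ => (∑ j, x j ^ 2) * ‖g x‖ ^ 2) volume)
    (hw : ∀ j : Fin d, ∃ h : (Fin d → ℝ) → ℂ, MemLp h 2 volume ∧
       ∀ φ : (Fin d → ℝ) → ℂ, ContDiff ℝ ((⊤ : ℕ∞) : WithTop ℕ∞) φ → HasCompactSupport φ →
         ∫ x, g x * fderiv ℝ φ x (Pi.single j (1 : ℝ) : Fin d → ℝ) = - ∫ x, h x * φ x) :
    False := by
  set j : Fin d := ⟨0, hd⟩ with hj
  set G : Hs d := hg.toLp with hG
  have hsum : ∀ (s : Finset (Fin d ⊕ Fin d → ℤ)) (c : (Fin d ⊕ Fin d → ℤ) → ℂ),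
      ‖∑ k ∈ s, c k • TF (Lm M k) G‖ ^ 2 = ∫ x, ‖∑ k ∈ s, c k *
            (Complex.exp (2 * (Real.pi : ℂ) * Complex.I *
                ((∑ j, Matrix.mulVec M (fun i => ((k i : ℤ) : ℝ)) (Sum.inr j) * x j : ℝ) : ℂ)) *
              g (x - fun j => Matrix.mulVec M (fun i => ((k i : ℤ) : ℝ)) (Sum.inl j)))‖ ^ 2 := by
    intro s c
    rw [norm_sq_Hs]
    apply integral_congr_ae
    have h1 := Lp.coeFn_finsetSum s (fun k => c k • TF (Lm M k) G)
    have h2 : ∀ᵐ x ∂(volume : Measure (V d)), ∀ k, (c k • TF (Lm M k) G : Hs d) x =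
        c k * (TF (Lm M k) G) x := by
      rw [ae_all_iff]
      intro k
      filter_upwards [Lp.coeFn_smul (c k) (TF (Lm M k) G)] with x hx
      rw [hx]; rfl
    have h3 : ∀ᵐ x ∂(volume : Measure (V d)), ∀ k, (TF (Lm M k) G) x =
        Complex.exp (2 * (Real.pi : ℂ) * Complex.I *
                ((∑ j, Matrix.mulVec M (fun i => ((k i : ℤ) : ℝ)) (Sum.inr j) * x j : ℝ) : ℂ)) *
              g (x - fun j => Matrix.mulVec M (fun i => ((k i : ℤ) : ℝ)) (Sum.inl j)) := by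
      rw [ae_all_iff]
      exact fun k => Lm_ae M g hg k
    filter_upwards [h1, h2, h3] with x h1 h2 h3
    rw [h1]
    simp only [Finset.sum_apply]
    congr 2
    refine Finset.sum_congr rfl fun k _ => ?_
    rw [h2, h3]
  have hRB : RB TF (Lm M) G A B :=
    { posA := hA
      posB := hB
      lower := fun s c => by rw [hsum]; exact (hR s c).1
      upper := fun s c => by rw [hsum]; exact (hR s c).2
      total := by
        intro h hh
        have h1 := htot h (Lp.memLp h) (fun k => by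
          rw [← hh k, inner_Hs]
          apply integral_congr_ae
          filter_upwards [Lm_ae M g hg k] with x hx
          rw [hx])
        exact (Lp.eq_zero_iff_ae_eq_zero).2 h1 }
  obtain ⟨γ, hγ⟩ := hRB.exists_dual
  have hXG : MemLp (fun x : V d => (x j : ℂ) * G x) 2 volume := by
    have hm : AEStronglyMeasurable (fun x : V d => (x j : ℂ) * G x) volume := by
      refine AEStronglyMeasurable.mul ?_ (Lp.aestronglyMeasurable G)
      exact Continuous.aestronglyMeasurable (by fun_prop)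
    rw [memLp_two_iff_integrable_sq_norm hm]
    refine Integrable.mono' hx (by fun_prop) ?_
    filter_upwards [hg.coeFn_toLp] with x h1
    rw [hG, h1, norm_pow, norm_norm, norm_mul, Complex.norm_real, mul_pow, Real.norm_eq_abs, sq_abs]
    gcongr
    exact Finset.single_le_sum (f := fun j => x j ^ 2) (fun _ _ => sq_nonneg _) (Finset.mem_univ j)
  obtain ⟨h, hh, hw⟩ := hw j
  have hlip := lip_trans j g h hg hh hw
  have hXγ : MemLp (fun x : V d => (x j : ℂ) * γ x) 2 volume := by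
    refine memLp_of_lip_mod j γ (C := A⁻¹ * (2 * Real.pi * ‖hXG.toLp‖)) (by positivity) ?_
    intro s
    refine (hRB.dual_move prep hγ _ (fun k f => comm_phase _ _ f)).trans ?_
    rw [mul_assoc]
    exact mul_le_mul_of_nonneg_left (lip_mod j G hXG s) (by positivity)
  refine no_riesz prep hRB hγ (fun t => (Pi.single j t, 0)) (fun z => z.1 j) (fun z => z.2 j)
    ?_ ?_ ?_ rfl rfl ?_ (C := ‖hh.toLp‖) (norm_nonneg _) hlip (relA j G γ hXG hXγ)
  · intro t
    rw [Prod.neg_mk, neg_zero, ← Pi.single_neg]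
  · intro t
    unfold cc
    simp [ph_zero]
  · intro t z f
    rw [prep.mul, prep.mul, smul_smul, add_comm]
    congr 1
    unfold cc
    have e1 : ∑ k, z.2 k * (Pi.single j t : V d) k = t * z.2 j := by
      rw [Finset.sum_eq_single j]
      · simp [mul_comm]
      · intro k _ hk; simp [hk]
      · intro h; exact absurd (Finset.mem_univ j) h
    rw [e1]
    simp [ph_zero]
  · intro t
    simp

end Pool.Agent.Y275.BLT
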