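import Mathlib

/-! # Riesz bases generated by a projective unitary representation -/

set_option autoImplicit false

open Topology Filter Set ComplexConjugate
open scoped InnerProductSpace

namespace Pool.Agent.Y275.BLT

variable {H E I : Type*} [NormedAddCommGroup H] [InnerProductSpace ℂ H] [AddCommGroup E]
  [AddCommGroup I]

/-- a projective representation by isometries -/
structure PRep (T : E → H →ₗᵢ[ℂ] H) (c : E → E → ℂ) : Prop where
  norm_c : ∀ z w, ‖c z w‖ = 1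
  mul : ∀ z w f, T z (T w f) = c z w • T (z + w) f
  zero : ∀ f, T 0 f = f

section basic

variable {T : E → H →ₗᵢ[ℂ] H} {c : E → E → ℂ} (hT : PRep T c)
include hT

lemma PRep.c_ne (z w : E) : c z w ≠ 0 := by
  intro h
  have := hT.norm_c z w
  rw [h] at this
  simp at this

lemma PRep.adj (z : E) (u v : H) : ⟪T z u, v⟫_ℂ = (c z (-z))⁻¹ * ⟪u, T (-z) v⟫_ℂ := by
  have h1 : T z (T (-z) v) = c z (-z) • v := by
    rw [hT.mul, add_neg_cancel, hT.zero]
  have h2 : v = (c z (-z))⁻¹ • T z (T (-z) v) := by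
    rw [h1, smul_smul, inv_mul_cancel₀ (hT.c_ne _ _), one_smul]
  conv_lhs => rw [h2]
  rw [inner_smul_right, LinearIsometry.inner_map_map]

lemma PRep.norm_inner_adj (z : E) (u v : H) : ‖⟪T z u, v⟫_ℂ‖ = ‖⟪u, T (-z) v⟫_ℂ‖ := by
  rw [hT.adj, norm_mul, norm_inv, hT.norm_c, inv_one, one_mul]

/-- exchange of two coefficients -/
lemma PRep.exchange (z : E) (a b d e : H) :
    ⟪a, T (-z) b⟫_ℂ * ⟪T (-z) d, e⟫_ℂ = ⟪T z a, b⟫_ℂ * ⟪d, T z e⟫_ℂ := by
  have h1 := hT.adj z a b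
  have h2 : ⟪d, T z e⟫_ℂ = conj ((c z (-z))⁻¹) * ⟪T (-z) d, e⟫_ℂ := by
    rw [← inner_conj_symm, hT.adj, map_mul, inner_conj_symm]
  rw [h1, h2]
  have h3 : (c z (-z))⁻¹ * conj ((c z (-z))⁻¹) = 1 := by
    rw [Complex.mul_conj, Complex.normSq_eq_norm_sq, norm_inv, hT.norm_c]
    simp
  linear_combination (-(⟪a, T (-z) b⟫_ℂ * ⟪T (-z) d, e⟫_ℂ)) * h3

end basic

/-- the Riesz basis property of the orbit of `g` -/
structure RB (T : E → H →ₗᵢ[ℂ] H) (L : I →+ E) (g : H) (A B : ℝ) : Prop where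
  posA : 0 < A
  posB : 0 < B
  lower : ∀ (s : Finset I) (x : I → ℂ), A * ∑ k ∈ s, ‖x k‖ ^ 2 ≤ ‖∑ k ∈ s, x k • T (L k) g‖ ^ 2
  upper : ∀ (s : Finset I) (x : I → ℂ), ‖∑ k ∈ s, x k • T (L k) g‖ ^ 2 ≤ B * ∑ k ∈ s, ‖x k‖ ^ 2
  total : ∀ h : H, (∀ k, ⟪h, T (L k) g⟫_ℂ = 0) → h = 0

/-- the biorthogonal vector -/
structure Dual (T : E → H →ₗᵢ[ℂ] H) (L : I →+ E) (g γ : H) : Prop where
  one : ⟪γ, T (L 0) g⟫_ℂ = 1
  zero : ∀ k, k ≠ 0 → ⟪γ, T (L k) g⟫_ℂ = 0

section dual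

variable {T : E → H →ₗᵢ[ℂ] H} {c : E → E → ℂ} {L : I →+ E} {g : H} {A B : ℝ}

lemma RB.exists_dual [CompleteSpace H] (h : RB T L g A B) : ∃ γ, Dual T L g γ := by
  classical
  set S : (I →₀ ℂ) →ₗ[ℂ] H := Finsupp.linearCombination ℂ (fun k => T (L k) g) with hS
  have hSval : ∀ x : I →₀ ℂ, S x = ∑ k ∈ x.support, x k • T (L k) g := fun x => by
    rw [hS, Finsupp.linearCombination_apply, Finsupp.sum]
  have hlow : ∀ (x : I →₀ ℂ) (k : I), A * ‖x k‖ ^ 2 ≤ ‖S x‖ ^ 2 := by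
    intro x k
    rw [hSval]
    refine le_trans ?_ (h.lower x.support x)
    apply mul_le_mul_of_nonneg_left _ h.posA.le
    by_cases hk : k ∈ x.support
    · exact Finset.single_le_sum (f := fun k => ‖x k‖ ^ 2) (fun _ _ => by positivity) hk
    · rw [Finsupp.notMem_support_iff] at hk
      rw [hk]
      simp only [norm_zero, ne_eq, OfNat.ofNat_ne_zero, not_false_eq_true, zero_pow]
      positivity
  have hinj : Function.Injective S := by
    rw [← LinearMap.ker_eq_bot, LinearMap.ker_eq_bot']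
    intro x hx
    ext k
    have := hlow x k
    rw [hx, norm_zero, zero_pow two_ne_zero] at this
    have h2 : ‖x k‖ ^ 2 ≤ 0 := by
      by_contra hcon
      push Not at hcon
      have := mul_pos h.posA hcon
      linarith
    have h3 : ‖x k‖ = 0 := by nlinarith [norm_nonneg (x k)]
    simpa using h3
  set e := LinearEquiv.ofInjective S hinj with he
  set ℓ : LinearMap.range S →ₗ[ℂ] ℂ := (Finsupp.lapply (0 : I)).comp e.symm.toLinearMap with hℓ
  have hℓv : ∀ x : I →₀ ℂ, ℓ (e x) = x 0 := by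
    intro x
    simp [hℓ]
  have hbound : ∀ y : LinearMap.range S, ‖ℓ y‖ ≤ (√A)⁻¹ * ‖y‖ := by
    intro y
    obtain ⟨x, rfl⟩ := e.surjective y
    rw [hℓv]
    have h1 := hlow x 0
    have h2 : ‖e x‖ = ‖S x‖ := by
      rw [he]; rfl
    rw [h2, ← div_eq_inv_mul, le_div_iff₀ (by have := h.posA; positivity)]
    rw [← abs_of_nonneg (norm_nonneg (S x)), ← Real.sqrt_sq_eq_abs]
    refine le_trans (le_of_eq ?_) (Real.sqrt_le_sqrt h1)
    rw [Real.sqrt_mul h.posA.le, Real.sqrt_sq (norm_nonneg _), mul_comm]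
  obtain ⟨f, hf, -⟩ := exists_extension_norm_eq (LinearMap.range S) (ℓ.mkContinuous _ hbound)
  refine ⟨(InnerProductSpace.toDual ℂ H).symm f, ?_, ?_⟩
  · rw [InnerProductSpace.toDual_symm_apply]
    have h1 : T (L 0) g = S (Finsupp.single 0 1) := by
      rw [hS, Finsupp.linearCombination_single, one_smul]
    have h2 := hf (e (Finsupp.single 0 1))
    rw [LinearMap.mkContinuous_apply, hℓv] at h2
    rw [h1]
    exact h2.trans (by simp)
  · intro k hk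
    rw [InnerProductSpace.toDual_symm_apply]
    have h1 : T (L k) g = S (Finsupp.single k 1) := by
      rw [hS, Finsupp.linearCombination_single, one_smul]
    have h2 := hf (e (Finsupp.single k 1))
    rw [LinearMap.mkContinuous_apply, hℓv, Finsupp.single_apply, if_neg hk] at h2
    rw [h1]
    exact h2

lemma Dual.inner_eq [DecidableEq I] (hT : PRep T c) {γ : H} (hd : Dual T L g γ) (k l : I) :
    ⟪T (L k) γ, T (L l) g⟫_ℂ = if k = l then 1 else 0 := by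
  split_ifs with hkl
  · subst hkl
    rw [LinearIsometry.inner_map_map]
    have := hd.one
    rwa [map_zero, hT.zero] at this
  · rw [hT.adj, hT.mul, inner_smul_right, ← map_neg, ← map_add, hd.zero, mul_zero, mul_zero]
    intro h
    apply hkl
    have : l = k := by
      have := congrArg (fun x => k + x) h
      simpa using this
    exact this.symm

lemma Dual.coef [DecidableEq I] (hT : PRep T c) {γ : H} (hd : Dual T L g γ) (s : Finset I)
    (x : I → ℂ) (k : I) :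
    ⟪T (L k) γ, ∑ l ∈ s, x l • T (L l) g⟫_ℂ = if k ∈ s then x k else 0 := by
  rw [inner_sum]
  simp_rw [inner_smul_right, hd.inner_eq hT]
  simp

lemma RB.exists_approx (h : RB T L g A B) (f : H) [CompleteSpace H] {ε : ℝ} (hε : 0 < ε) :
    ∃ (s : Finset I) (x : I → ℂ), ‖f - ∑ k ∈ s, x k • T (L k) g‖ < ε := by
  set K : Submodule ℂ H := Submodule.span ℂ (Set.range fun k => T (L k) g) with hK
  have h1 : Kᗮ = ⊥ := by
    rw [Submodule.eq_bot_iff]
    intro v hv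
    apply h.total
    intro k
    rw [Submodule.mem_orthogonal] at hv
    have := hv (T (L k) g) (Submodule.subset_span ⟨k, rfl⟩)
    rw [← inner_conj_symm, this, map_zero]
  have h2 : K.topologicalClosure = ⊤ := by
    rw [Submodule.topologicalClosure_eq_top_iff, h1]
  have h3 : f ∈ closure (K : Set H) := by
    rw [← Submodule.topologicalClosure_coe, h2]
    trivial
  obtain ⟨y, hy, hd⟩ := Metric.mem_closure_iff.1 h3 ε hε
  rw [dist_eq_norm] at hd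
  obtain ⟨x, hx⟩ := (Finsupp.mem_span_range_iff_exists_finsupp).1 hy
  refine ⟨x.support, x, ?_⟩
  rw [← hx, Finsupp.sum] at hd
  exact hd

/-- upper Bessel bound for `g` -/
lemma RB.bessel (h : RB T L g A B) (s : Finset I) (f : H) :
    ∑ k ∈ s, ‖⟪T (L k) g, f⟫_ℂ‖ ^ 2 ≤ B * ‖f‖ ^ 2 := by
  set x : I → ℂ := fun k => ⟪T (L k) g, f⟫_ℂ with hx
  set F := ∑ k ∈ s, x k • T (L k) g with hF
  have h1 : ⟪F, f⟫_ℂ = ((∑ k ∈ s, ‖x k‖ ^ 2 : ℝ) : ℂ) := by
    rw [hF, sum_inner]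
    push_cast
    refine Finset.sum_congr rfl fun k _ => ?_
    rw [inner_smul_left]
    change conj (x k) * x k = _
    rw [← Complex.normSq_eq_conj_mul_self, Complex.normSq_eq_norm_sq]
    push_cast; rfl
  set N := ∑ k ∈ s, ‖x k‖ ^ 2 with hN
  have hN0 : 0 ≤ N := Finset.sum_nonneg fun _ _ => by positivity
  have h2 : N ≤ ‖F‖ * ‖f‖ := by
    have := norm_inner_le_norm (𝕜 := ℂ) F f
    rw [h1, Complex.norm_real, Real.norm_of_nonneg hN0] at this
    exact this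
  have h3 : ‖F‖ ^ 2 ≤ B * N := h.upper s x
  have h4 : N ^ 2 ≤ B * N * ‖f‖ ^ 2 := by
    calc N ^ 2 ≤ (‖F‖ * ‖f‖) ^ 2 := pow_le_pow_left₀ hN0 h2 2
      _ = ‖F‖ ^ 2 * ‖f‖ ^ 2 := by ring
      _ ≤ B * N * ‖f‖ ^ 2 := by gcongr
  rcases hN0.eq_or_lt with h0 | h0
  · rw [← h0]
    have := h.posB
    positivity
  · have : N * N ≤ N * (B * ‖f‖ ^ 2) := by nlinarith
    exact le_of_mul_le_mul_left this h0

/-- Bessel bound for the dual window -/
lemma RB.bessel_dual [CompleteSpace H] (hT : PRep T c) (h : RB T L g A B) {γ : H}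
    (hd : Dual T L g γ) (s : Finset I) (f : H) :
    ∑ k ∈ s, ‖⟪T (L k) γ, f⟫_ℂ‖ ^ 2 ≤ A⁻¹ * ‖f‖ ^ 2 := by
  classical
  have hcl : IsClosed {f : H | ∑ k ∈ s, ‖⟪T (L k) γ, f⟫_ℂ‖ ^ 2 ≤ A⁻¹ * ‖f‖ ^ 2} := by
    apply isClosed_le <;> fun_prop
  have hmem : f ∈ closure {f : H | ∑ k ∈ s, ‖⟪T (L k) γ, f⟫_ℂ‖ ^ 2 ≤ A⁻¹ * ‖f‖ ^ 2} := by
    rw [Metric.mem_closure_iff]
    intro ε hε
    obtain ⟨t, x, hx⟩ := h.exists_approx f hε
    refine ⟨∑ k ∈ t, x k • T (L k) g, ?_, by rw [dist_eq_norm]; exact hx⟩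
    change ∑ k ∈ s, ‖⟪T (L k) γ, ∑ k ∈ t, x k • T (L k) g⟫_ℂ‖ ^ 2 ≤ _
    simp_rw [hd.coef hT]
    have h1 : ∑ k ∈ s, ‖(if k ∈ t then x k else 0 : ℂ)‖ ^ 2 ≤ ∑ k ∈ t, ‖x k‖ ^ 2 := by
      have e : ∀ k, ‖(if k ∈ t then x k else 0 : ℂ)‖ ^ 2 = if k ∈ t then ‖x k‖ ^ 2 else 0 := by
        intro k; split_ifs <;> simp
      simp_rw [e]
      rw [← Finset.sum_filter]
      exact Finset.sum_le_sum_of_subset_of_nonneg (fun k hk => (Finset.mem_filter.1 hk).2)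
        (fun _ _ _ => by positivity)
    refine h1.trans ?_
    rw [← div_eq_inv_mul, le_div_iff₀ h.posA, mul_comm]
    exact h.lower t x
  rwa [hcl.closure_eq] at hmem

/-- the expansion -/
lemma RB.hasSum [CompleteSpace H] (hT : PRep T c) (h : RB T L g A B) {γ : H}
    (hd : Dual T L g γ) (f : H) : HasSum (fun k => ⟪T (L k) γ, f⟫_ℂ • T (L k) g) f := by
  classical
  have hP : ∀ (s : Finset I) (v : H), ‖∑ k ∈ s, ⟪T (L k) γ, v⟫_ℂ • T (L k) g‖ ≤
      √(B * A⁻¹) * ‖v‖ := by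
    intro s v
    have h1 := (h.upper s fun k => ⟪T (L k) γ, v⟫_ℂ).trans
      (mul_le_mul_of_nonneg_left (h.bessel_dual hT hd s v) h.posB.le)
    have h2 := Real.sqrt_le_sqrt h1
    rw [Real.sqrt_sq (norm_nonneg _), ← mul_assoc, Real.sqrt_mul
      (by have := h.posA; have := h.posB; positivity), Real.sqrt_sq (norm_nonneg _)] at h2
    exact h2
  rw [HasSum, SummationFilter.unconditional_filter, Metric.tendsto_atTop]
  intro ε hε
  set D := √(B * A⁻¹) + 1 with hD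
  have hD0 : 0 < D := by positivity
  obtain ⟨t, x, hx⟩ := h.exists_approx f (div_pos hε hD0)
  refine ⟨t, fun s hs => ?_⟩
  set v := ∑ k ∈ t, x k • T (L k) g with hv
  have h1 : ∑ k ∈ s, ⟪T (L k) γ, v⟫_ℂ • T (L k) g = v := by
    simp_rw [hv, hd.coef hT]
    simp_rw [ite_smul, zero_smul]
    rw [← Finset.sum_filter, Finset.filter_mem_eq_inter, Finset.inter_eq_right.2 hs]
  rw [dist_eq_norm]
  have h2 : ∑ k ∈ s, ⟪T (L k) γ, f⟫_ℂ • T (L k) g - f =
      ∑ k ∈ s, ⟪T (L k) γ, f - v⟫_ℂ • T (L k) g - (f - v) := by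
    simp_rw [inner_sub_right, sub_smul]
    rw [Finset.sum_sub_distrib, h1]
    abel
  rw [h2]
  calc _ ≤ ‖∑ k ∈ s, ⟪T (L k) γ, f - v⟫_ℂ • T (L k) g‖ + ‖f - v‖ := norm_sub_le _ _
    _ ≤ √(B * A⁻¹) * ‖f - v‖ + ‖f - v‖ := by
        gcongr; exact hP s _
    _ = D * ‖f - v‖ := by rw [hD]; ring
    _ < D * (ε / D) := by gcongr
    _ = ε := by field_simp

lemma RB.hasSum_inner [CompleteSpace H] (hT : PRep T c) (h : RB T L g A B) {γ : H}
    (hd : Dual T L g γ) (f v : H) :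
    HasSum (fun k => ⟪f, T (L k) γ⟫_ℂ * ⟪T (L k) g, v⟫_ℂ) ⟪f, v⟫_ℂ := by
  have h1 := (h.hasSum hT hd f).mapL (innerSL ℂ v)
  have h2 := (Complex.hasSum_conj'.2 h1)
  simp only [innerSL_apply_apply, inner_smul_right, map_mul, inner_conj_symm] at h2
  exact h2

/-- The dual window moves as little as the window. -/
lemma RB.dual_move [CompleteSpace H] (hT : PRep T c) (h : RB T L g A B) {γ : H}
    (hd : Dual T L g γ) (z : E) (hz : ∀ k f, ∃ w : ℂ, ‖w‖ = 1 ∧ T z (T (L k) f) = w • T (L k) (T z f)) :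
    ‖T z γ - γ‖ ≤ A⁻¹ * ‖T z g - g‖ := by
  set f := T z γ - γ with hf
  have hA := h.posA
  -- the coefficients
  have hco : ∀ k, ‖⟪T (L k) g, f⟫_ℂ‖ ≤ ‖⟪T (L (-k)) γ, T (-z) (T z g - g)⟫_ℂ‖ := by
    intro k
    have h1 : ⟪T (L k) g, γ⟫_ℂ = ⟪T (L k) (T z g), T z γ⟫_ℂ := by
      obtain ⟨w, hw, hw2⟩ := hz k g
      have h2 : ⟪T z (T (L k) g), T z γ⟫_ℂ = ⟪T (L k) g, γ⟫_ℂ := LinearIsometry.inner_map_map _ _ _
      rw [hw2, inner_smul_left] at h2
      by_cases hk : k = 0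
      · subst hk
        rw [map_zero, hT.zero, hT.zero, LinearIsometry.inner_map_map]
      · have h3 : ⟪T (L k) g, γ⟫_ℂ = 0 := by
          rw [← inner_conj_symm, hd.zero k hk, map_zero]
        rw [h3] at h2 ⊢
        have hw0 : conj w ≠ 0 := by
          intro h0
          rw [map_eq_zero] at h0
          rw [h0] at hw
          simp at hw
        rcases mul_eq_zero.1 h2 with h4 | h4
        · exact absurd h4 hw0
        · exact h4.symm
    have h2 : ⟪T (L k) g, f⟫_ℂ = ⟪T (L k) (g - T z g), T z γ⟫_ℂ := by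
      rw [hf, inner_sub_right, h1, map_sub, inner_sub_left]
    rw [h2, hT.norm_inner_adj, ← map_neg]
    obtain ⟨w, hw, hw2⟩ := hz (-k) γ
    have h3 : T (L (-k)) (T z γ) = w⁻¹ • T z (T (L (-k)) γ) := by
      rw [hw2, smul_smul, inv_mul_cancel₀, one_smul]
      intro h0
      rw [h0] at hw
      simp at hw
    rw [h3, inner_smul_right, norm_mul, norm_inv, hw, inv_one, one_mul, norm_inner_symm,
      hT.norm_inner_adj, map_sub, map_sub, ← norm_neg, ← inner_neg_right, neg_sub]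
  have hbes : ∀ s : Finset I, ∑ k ∈ s, ‖⟪T (L k) g, f⟫_ℂ‖ ^ 2 ≤ A⁻¹ * ‖T z g - g‖ ^ 2 := by
    classical
    intro s
    calc ∑ k ∈ s, ‖⟪T (L k) g, f⟫_ℂ‖ ^ 2
        ≤ ∑ k ∈ s, ‖⟪T (L (-k)) γ, T (-z) (T z g - g)⟫_ℂ‖ ^ 2 := by
          apply Finset.sum_le_sum
          intro k _
          exact pow_le_pow_left₀ (norm_nonneg _) (hco k) 2
      _ = ∑ k ∈ s.image (fun k => -k), ‖⟪T (L k) γ, T (-z) (T z g - g)⟫_ℂ‖ ^ 2 := by
          rw [Finset.sum_image (fun a _ b _ hab => neg_injective hab)]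
      _ ≤ A⁻¹ * ‖T (-z) (T z g - g)‖ ^ 2 := h.bessel_dual hT hd _ _
      _ = A⁻¹ * ‖T z g - g‖ ^ 2 := by rw [LinearIsometry.norm_map]
  -- the norm of f
  have key : ‖f‖ ^ 2 ≤ A⁻¹ * ‖T z g - g‖ * ‖f‖ := by
    have h1 := h.hasSum_inner hT hd f f
    have h2 : ∀ s : Finset I, ‖∑ k ∈ s, ⟪f, T (L k) γ⟫_ℂ * ⟪T (L k) g, f⟫_ℂ‖ ≤
        A⁻¹ * ‖T z g - g‖ * ‖f‖ := by
      intro s
      calc ‖∑ k ∈ s, ⟪f, T (L k) γ⟫_ℂ * ⟪T (L k) g, f⟫_ℂ‖
          ≤ ∑ k ∈ s, ‖⟪T (L k) γ, f⟫_ℂ‖ * ‖⟪T (L k) g, f⟫_ℂ‖ := by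
            refine (norm_sum_le _ _).trans (le_of_eq ?_)
            refine Finset.sum_congr rfl fun k _ => ?_
            rw [norm_mul, norm_inner_symm]
        _ ≤ √(∑ k ∈ s, ‖⟪T (L k) γ, f⟫_ℂ‖ ^ 2) * √(∑ k ∈ s, ‖⟪T (L k) g, f⟫_ℂ‖ ^ 2) :=
            Real.sum_mul_le_sqrt_mul_sqrt _ _ _
        _ ≤ √(A⁻¹ * ‖f‖ ^ 2) * √(A⁻¹ * ‖T z g - g‖ ^ 2) := by
            gcongr
            · exact h.bessel_dual hT hd s f
            · exact hbes s
        _ = A⁻¹ * ‖T z g - g‖ * ‖f‖ := by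
            rw [Real.sqrt_mul (by positivity), Real.sqrt_mul (by positivity),
              Real.sqrt_sq (norm_nonneg _), Real.sqrt_sq (norm_nonneg _)]
            have : √A⁻¹ * √A⁻¹ = A⁻¹ := Real.mul_self_sqrt (by positivity)
            linear_combination (‖f‖ * ‖T z g - g‖) * this
    have h3 : ‖⟪f, f⟫_ℂ‖ ≤ A⁻¹ * ‖T z g - g‖ * ‖f‖ :=
      le_of_tendsto h1.norm (Eventually.of_forall h2)
    rw [inner_self_eq_norm_sq_to_K] at h3
    simpa using h3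
  by_cases h0 : ‖f‖ = 0
  · rw [h0]; positivity
  · have : 0 < ‖f‖ := lt_of_le_of_ne (norm_nonneg _) (Ne.symm h0)
    nlinarith

end dual

end Pool.Agent.Y275.BLT
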