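import Pool.Agent.Y275.BLT.Main

/-! # Time-frequency shifts on `L²(ℝ^d)` -/

set_option autoImplicit false

open Topology Filter Set ComplexConjugate MeasureTheory
open scoped InnerProductSpace ENNReal

namespace Pool.Agent.Y275.BLT

variable {d : ℕ}

/-- the domain -/
abbrev V (d : ℕ) := Fin d → ℝ

/-- the Hilbert space -/
noncomputable abbrev Hs (d : ℕ) := Lp ℂ 2 (volume : Measure (V d))

/-- the time-frequency shift of a function -/
noncomputable def tf (a b : V d) (f : V d → ℂ) : V d → ℂ := fun x =>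
  ph (∑ j, b j * x j) * f (x - a)

lemma continuous_ph : Continuous ph := by unfold ph; fun_prop

lemma tf_ae (a b : V d) {f f' : V d → ℂ} (h : f =ᵐ[volume] f') :
    tf a b f =ᵐ[volume] tf a b f' := by
  have := (measurePreserving_sub_right (volume : Measure (V d)) a).quasiMeasurePreserving.ae_eq_comp h
  filter_upwards [this] with x hx
  simp only [Function.comp] at hx
  unfold tf
  rw [hx]

lemma aesm_tf (a b : V d) {f : V d → ℂ} (h : AEStronglyMeasurable f volume) :
    AEStronglyMeasurable (tf a b f) volume := by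
  unfold tf
  refine AEStronglyMeasurable.mul ?_ ?_
  · exact (continuous_ph.comp (by fun_prop)).aestronglyMeasurable
  · exact h.comp_measurePreserving (measurePreserving_sub_right volume a)

lemma eLpNorm_tf (a b : V d) {f : V d → ℂ} (h : AEStronglyMeasurable f volume) :
    eLpNorm (tf a b f) 2 volume = eLpNorm f 2 volume := by
  rw [← eLpNorm_comp_measurePreserving h (measurePreserving_sub_right volume a)]
  apply eLpNorm_congr_norm_ae
  filter_upwards with x
  unfold tf
  rw [norm_mul, norm_ph, one_mul]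
  rfl

lemma memLp_tf (a b : V d) {f : V d → ℂ} (h : MemLp f 2 volume) : MemLp (tf a b f) 2 volume :=
  ⟨aesm_tf a b h.1, by rw [eLpNorm_tf a b h.1]; exact h.2⟩

/-- the time-frequency shift as an isometry -/
noncomputable def TF (z : V d × V d) : Hs d →ₗᵢ[ℂ] Hs d where
  toFun f := (memLp_tf z.1 z.2 (Lp.memLp f)).toLp
  map_add' f f' := by
    apply Lp.ext
    have h1 := tf_ae z.1 z.2 (Lp.coeFn_add f f')
    filter_upwards [(memLp_tf z.1 z.2 (Lp.memLp (f + f'))).coeFn_toLp,
      (memLp_tf z.1 z.2 (Lp.memLp f)).coeFn_toLp, (memLp_tf z.1 z.2 (Lp.memLp f')).coeFn_toLp,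
      Lp.coeFn_add (memLp_tf z.1 z.2 (Lp.memLp f)).toLp (memLp_tf z.1 z.2 (Lp.memLp f')).toLp, h1]
      with x h2 h3 h4 h5 h6
    rw [h2, h5, h6, Pi.add_apply, h3, h4]
    unfold tf
    simp only [Pi.add_apply]
    ring
  map_smul' r f := by
    apply Lp.ext
    have h1 := tf_ae z.1 z.2 (Lp.coeFn_smul r f)
    filter_upwards [(memLp_tf z.1 z.2 (Lp.memLp (r • f))).coeFn_toLp,
      (memLp_tf z.1 z.2 (Lp.memLp f)).coeFn_toLp,
      Lp.coeFn_smul r (memLp_tf z.1 z.2 (Lp.memLp f)).toLp, h1]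
      with x h2 h3 h5 h6
    rw [RingHom.id_apply, h2, h5, h6, Pi.smul_apply, h3]
    unfold tf
    simp only [Pi.smul_apply, smul_eq_mul]
    ring
  norm_map' f := by
    change ‖(memLp_tf z.1 z.2 (Lp.memLp f)).toLp‖ = ‖f‖
    rw [Lp.norm_toLp, eLpNorm_tf _ _ (Lp.aestronglyMeasurable f), Lp.norm_def]

lemma TF_ae (z : V d × V d) (f : Hs d) : TF z f =ᵐ[volume] tf z.1 z.2 f :=
  (memLp_tf z.1 z.2 (Lp.memLp f)).coeFn_toLp

/-- the cocycle -/
noncomputable def cc (z w : V d × V d) : ℂ := ph (-(∑ j, w.2 j * z.1 j))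

lemma prep : PRep (TF (d := d)) cc where
  norm_c z w := norm_ph _
  mul z w f := by
    apply Lp.ext
    filter_upwards [TF_ae z (TF w f), tf_ae z.1 z.2 (TF_ae w f), TF_ae (z + w) f,
      Lp.coeFn_smul (cc z w) (TF (z + w) f)] with x h1 h2 h3 h4
    rw [h1, h2, h4, Pi.smul_apply, h3, smul_eq_mul]
    unfold tf cc
    have e1 : x - z.1 - w.1 = x - (z + w).1 := by
      rw [Prod.fst_add]; abel
    rw [e1, ← mul_assoc, ← mul_assoc, ← ph_add, ← ph_add]
    congr 2
    rw [← Finset.sum_neg_distrib, ← Finset.sum_add_distrib, ← Finset.sum_add_distrib]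
    refine Finset.sum_congr rfl fun j _ => ?_
    simp only [Prod.snd_add, Pi.add_apply, Pi.sub_apply]
    ring
  zero f := by
    apply Lp.ext
    filter_upwards [TF_ae 0 f] with x h1
    rw [h1]
    unfold tf
    simp [ph_zero]

lemma inner_Hs (f g : Hs d) : ⟪f, g⟫_ℂ = ∫ x, conj (f x) * g x := by
  rw [L2.inner_def]
  congr 1 with x
  rw [RCLike.inner_apply, mul_comm]

lemma norm_sq_Hs (f : Hs d) : ‖f‖ ^ 2 = ∫ x, ‖f x‖ ^ 2 := by
  have h1 : (⟪f, f⟫_ℂ) = ((‖f‖ ^ 2 : ℝ) : ℂ) := by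
    rw [inner_self_eq_norm_sq_to_K]; push_cast; rfl
  have h2 : (⟪f, f⟫_ℂ) = ((∫ x, ‖f x‖ ^ 2 : ℝ) : ℂ) := by
    rw [inner_Hs, ← integral_complex_ofReal]
    congr 1 with x
    rw [← Complex.normSq_eq_conj_mul_self, Complex.normSq_eq_norm_sq]
  rw [h1] at h2
  exact_mod_cast h2

/-- the relation between multiplication by a coordinate and shifts -/
lemma relA (j : Fin d) (u v : Hs d) (hu : MemLp (fun x : V d => (x j : ℂ) * u x) 2 volume)
    (hv : MemLp (fun x : V d => (x j : ℂ) * v x) 2 volume) (z : V d × V d) :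
    ⟪hu.toLp, TF z v⟫_ℂ = ⟪u, TF z hv.toLp⟫_ℂ + (z.1 j : ℂ) * ⟪u, TF z v⟫_ℂ := by
  rw [L2.inner_def, L2.inner_def, L2.inner_def, ← integral_const_mul, ← integral_add]
  · apply integral_congr_ae
    filter_upwards [hu.coeFn_toLp, TF_ae z v, TF_ae z hv.toLp, tf_ae z.1 z.2 hv.coeFn_toLp]
      with x h1 h2 h3 h4
    rw [h1, h2, h3, h4]
    simp only [RCLike.inner_apply, map_mul, Complex.conj_ofReal]
    unfold tf
    simp only [Pi.sub_apply]
    push_cast
    ring
  · exact L2.integrable_inner _ _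
  · exact (L2.integrable_inner _ _).const_mul _

/-- modulations move a function with a moment little -/
lemma lip_mod (j : Fin d) (u : Hs d) (hu : MemLp (fun x : V d => (x j : ℂ) * u x) 2 volume)
    (s : ℝ) : ‖TF (0, Pi.single j s) u - u‖ ≤ 2 * Real.pi * ‖hu.toLp‖ * |s| := by
  have h : ‖TF (0, Pi.single j s) u - u‖ ≤ (2 * Real.pi * |s|) * ‖hu.toLp‖ := by
    apply Lp.norm_le_mul_norm_of_ae_le_mul
    filter_upwards [TF_ae (0, Pi.single j s) u, Lp.coeFn_sub (TF (0, Pi.single j s) u) u,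
      hu.coeFn_toLp] with x h1 h2 h3
    rw [h2, h3, Pi.sub_apply, h1]
    unfold tf
    simp only [sub_zero]
    have e : ∑ k, (Pi.single j s : V d) k * x k = s * x j := by
      rw [Finset.sum_eq_single j]
      · simp
      · intro k _ hk; simp [hk]
      · intro h; exact absurd (Finset.mem_univ j) h
    rw [e]
    have e2 : ph (s * x j) * u x - u x = (ph (s * x j) - 1) * u x := by ring
    rw [e2, norm_mul, norm_mul, Complex.norm_real, Real.norm_eq_abs]
    have := norm_ph_sub_one (s * x j)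
    rw [abs_mul] at this
    calc _ ≤ (2 * Real.pi * (|s| * |x j|)) * ‖u x‖ := by gcongr
      _ = _ := by ring
  linarith

/-- conversely a function that modulations move little has a moment -/
lemma memLp_of_lip_mod (j : Fin d) (u : Hs d) {C : ℝ} (hC : 0 ≤ C)
    (h : ∀ s : ℝ, ‖TF (0, Pi.single j s) u - u‖ ≤ C * |s|) :
    MemLp (fun x : V d => (x j : ℂ) * u x) 2 volume := by
  set F : ℕ → V d → ℂ := fun n x => ((n : ℂ) + 1) * ((ph ((1 / ((n:ℝ) + 1)) * x j) - 1) * u x)
    with hF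
  have hFn : ∀ n, F n =ᵐ[volume] fun x => ((n : ℂ) + 1) *
      (TF (0, Pi.single j (1 / ((n:ℝ) + 1))) u - u : Hs d) x := by
    intro n
    filter_upwards [TF_ae (0, Pi.single j (1 / ((n:ℝ) + 1))) u,
      Lp.coeFn_sub (TF (0, Pi.single j (1 / ((n:ℝ) + 1))) u) u] with x h1 h2
    rw [h2, Pi.sub_apply, h1]
    unfold tf
    simp only [sub_zero, hF]
    have e : ∑ k, (Pi.single j (1 / ((n:ℝ) + 1)) : V d) k * x k = (1 / ((n:ℝ) + 1)) * x j := by
      rw [Finset.sum_eq_single j]
      · simp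
      · intro k _ hk; simp [hk]
      · intro h; exact absurd (Finset.mem_univ j) h
    rw [e]
    ring
  have hlim : ∀ x, Tendsto (fun n => F n x) atTop
      (𝓝 (((2 * Real.pi * x j : ℝ) : ℂ) * Complex.I * u x)) := by
    intro x
    have hd : HasDerivAt (fun s : ℝ => ph (s * x j)) (((2 * Real.pi * x j : ℝ) : ℂ) * Complex.I) 0 := by
      unfold ph
      have h1 : HasDerivAt (fun s : ℝ => (((2 * Real.pi * (s * x j) : ℝ)) : ℂ) * Complex.I)
          (((2 * Real.pi * x j : ℝ) : ℂ) * Complex.I) 0 := by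
        have h2 : HasDerivAt (fun s : ℝ => 2 * Real.pi * (s * x j)) (2 * Real.pi * x j) 0 := by
          have := ((hasDerivAt_id (0:ℝ)).mul_const (x j)).const_mul (2 * Real.pi)
          simpa using this
        exact h2.ofReal_comp.mul_const _
      have h3 := h1.cexp
      refine h3.congr_deriv ?_
      simp
    have h2 := hd.tendsto_slope_zero_right
    have h3 : Tendsto (fun n : ℕ => 1 / ((n:ℝ) + 1)) atTop (𝓝[>] 0) := by
      rw [tendsto_nhdsWithin_iff]
      refine ⟨tendsto_one_div_add_atTop_nhds_zero_nat, Eventually.of_forall fun n => ?_⟩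
      change (0:ℝ) < 1 / ((n:ℝ) + 1)
      positivity
    have h4 := (h2.comp h3).mul_const (u x)
    refine h4.congr fun n => ?_
    simp only [Function.comp, hF, zero_add, zero_mul, ph_zero, Complex.real_smul]
    push_cast
    rw [one_div, inv_inv]
    ring
  have hmeas : ∀ n, AEStronglyMeasurable (F n) volume := by
    intro n
    refine AEStronglyMeasurable.congr ?_ (hFn n).symm
    exact (Lp.aestronglyMeasurable _).const_mul _
  have hbd : ∀ n, eLpNorm (F n) 2 volume ≤ ENNReal.ofReal C := by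
    intro n
    rw [eLpNorm_congr_ae (hFn n)]
    have e1 : (fun x => ((n : ℂ) + 1) * (TF (0, Pi.single j (1 / ((n:ℝ) + 1))) u - u : Hs d) x) =
        ((n : ℂ) + 1) • ((TF (0, Pi.single j (1 / ((n:ℝ) + 1))) u - u : Hs d) : V d → ℂ) := by
      ext x; rfl
    rw [e1, eLpNorm_const_smul, ← Lp.enorm_def]
    have h1 := h (1 / ((n:ℝ) + 1))
    rw [← ofReal_norm, ← ofReal_norm, ← ENNReal.ofReal_mul (norm_nonneg _)]
    apply ENNReal.ofReal_le_ofReal
    have e2 : ‖(n : ℂ) + 1‖ = (n:ℝ) + 1 := by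
      have : ((n : ℂ) + 1) = (((n:ℝ) + 1 : ℝ) : ℂ) := by push_cast; rfl
      rw [this, Complex.norm_real, Real.norm_of_nonneg (by positivity)]
    rw [e2]
    have hn : (0:ℝ) < (n:ℝ) + 1 := by positivity
    rw [abs_of_pos (by positivity)] at h1
    calc ((n:ℝ) + 1) * _ ≤ ((n:ℝ) + 1) * (C * (1 / ((n:ℝ) + 1))) := by gcongr
      _ = C := by field_simp
  have h1 : eLpNorm (fun x : V d => ((2 * Real.pi * x j : ℝ) : ℂ) * Complex.I * u x) 2 volume ≤
      ENNReal.ofReal C := by
    refine (Lp.eLpNorm_lim_le_liminf_eLpNorm hmeas _ (Eventually.of_forall hlim)).trans ?_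
    refine (liminf_le_liminf (Eventually.of_forall hbd)).trans ?_
    simp
  have hm0 : AEStronglyMeasurable (fun x : V d => (x j : ℂ) * u x) volume := by
    refine AEStronglyMeasurable.mul ?_ (Lp.aestronglyMeasurable u)
    exact Continuous.aestronglyMeasurable (by fun_prop)
  refine ⟨hm0, ?_⟩
  have h2 : ∀ x : V d, ‖(x j : ℂ) * u x‖ ≤ ‖((2 * Real.pi * x j : ℝ) : ℂ) * Complex.I * u x‖ := by
    intro x
    simp only [norm_mul, Complex.norm_real, Complex.norm_I, mul_one, Real.norm_eq_abs]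
    rw [abs_of_pos Real.pi_pos, abs_of_pos (by norm_num : (0:ℝ) < 2)]
    have : 1 ≤ 2 * Real.pi := by linarith [Real.pi_gt_three]
    have h3 : 0 ≤ |x j| * ‖u x‖ := by positivity
    nlinarith
  exact (eLpNorm_mono h2).trans_lt (h1.trans_lt ENNReal.ofReal_lt_top)

end Pool.Agent.Y275.BLT
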