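import Pool.Agent.Y275.BLT.Abs

/-! # The abstract Balian-Low argument -/

set_option autoImplicit false

open Topology Filter Set ComplexConjugate
open scoped InnerProductSpace

namespace Pool.Agent.Y275.BLT

variable {H E I : Type*} [NormedAddCommGroup H] [InnerProductSpace ℂ H] [AddCommGroup E]
  [AddCommGroup I]

/-- the ultrafilter used for weak limits -/
noncomputable def UU : Ultrafilter ℕ := Filter.hyperfilter ℕ

lemma UU_le : (UU : Filter ℕ) ≤ atTop := Nat.hyperfilter_le_atTop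

lemma exists_weak_lim [CompleteSpace H] (y : ℕ → H) {C : ℝ} (hy : ∀ n, ‖y n‖ ≤ C) :
    ∃ q : H, (∀ f : H, Tendsto (fun n => ⟪f, y n⟫_ℂ) (UU : Filter ℕ) (𝓝 ⟪f, q⟫_ℂ)) ∧
      ∀ f : H, Tendsto (fun n => ⟪y n, f⟫_ℂ) (UU : Filter ℕ) (𝓝 ⟪q, f⟫_ℂ) := by
  have hC : 0 ≤ C := (norm_nonneg _).trans (hy 0)
  have hb : ∀ f n, ‖⟪y n, f⟫_ℂ‖ ≤ C * ‖f‖ := fun f n =>
    (norm_inner_le_norm _ _).trans (by gcongr; exact hy n)
  have hex : ∀ f : H, ∃ a : ℂ, ‖a‖ ≤ C * ‖f‖ ∧
      Tendsto (fun n => ⟪y n, f⟫_ℂ) (UU : Filter ℕ) (𝓝 a) := by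
    intro f
    have hK : IsCompact (Metric.closedBall (0:ℂ) (C * ‖f‖)) := isCompact_closedBall _ _
    obtain ⟨a, ha, ha2⟩ := hK.ultrafilter_le_nhds (UU.map fun n => ⟪y n, f⟫_ℂ) (by
      rw [le_principal_iff, Ultrafilter.coe_map, mem_map]
      filter_upwards with n
      rw [mem_preimage, Metric.mem_closedBall, dist_zero_right]
      exact hb f n)
    refine ⟨a, ?_, ha2⟩
    rwa [Metric.mem_closedBall, dist_zero_right] at ha
  choose ℓ hℓ1 hℓ2 using hex
  let Λ : H →ₗ[ℂ] ℂ :=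
    { toFun := ℓ
      map_add' := by
        intro a b
        refine tendsto_nhds_unique (hℓ2 (a + b)) ?_
        have := (hℓ2 a).add (hℓ2 b)
        simpa only [← inner_add_right] using this
      map_smul' := by
        intro r a
        refine tendsto_nhds_unique (hℓ2 (r • a)) ?_
        have := (hℓ2 a).const_mul r
        simpa only [inner_smul_right, RingHom.id_apply, smul_eq_mul] using this }
  refine ⟨(InnerProductSpace.toDual ℂ H).symm (Λ.mkContinuous C hℓ1), ?_, ?_⟩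
  · intro f
    rw [← inner_conj_symm, InnerProductSpace.toDual_symm_apply]
    have := (hℓ2 f).star
    refine (this.congr fun n => ?_)
    exact inner_conj_symm _ _
  · intro f
    rw [InnerProductSpace.toDual_symm_apply]
    exact hℓ2 f

/-- the phase -/
noncomputable def ph (s : ℝ) : ℂ := Complex.exp (((2 * Real.pi * s : ℝ) : ℂ) * Complex.I)

lemma norm_ph (s : ℝ) : ‖ph s‖ = 1 := by
  unfold ph
  exact Complex.norm_exp_ofReal_mul_I _

lemma ph_zero : ph 0 = 1 := by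
  unfold ph; simp

lemma ph_add (s t : ℝ) : ph (s + t) = ph s * ph t := by
  unfold ph
  rw [← Complex.exp_add]
  congr 1
  push_cast; ring

lemma norm_ph_sub_one (s : ℝ) : ‖ph s - 1‖ ≤ 2 * Real.pi * |s| := by
  unfold ph
  have h := Real.norm_exp_I_mul_ofReal_sub_one_le (x := 2 * Real.pi * s)
  rw [mul_comm] at h
  refine h.trans (le_of_eq ?_)
  rw [Real.norm_eq_abs, abs_mul, abs_of_pos (by positivity)]

lemma hasSum_congr_fn' {ι : Type*} {f f' : ι → ℂ} {a : ℂ} (h : HasSum f a)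
    (e : ∀ k, f' k = f k) : HasSum f' a := by
  rw [funext e]
  exact h

variable {T : E → H →ₗᵢ[ℂ] H} {c : E → E → ℂ} {L : I →+ E} {g : H} {A B : ℝ}

theorem no_riesz [CompleteSpace H] (hT : PRep T c) (h : RB T L g A B) {γ : H}
    (hd : Dual T L g γ) (τ : ℝ → E) (α β : E → ℝ)
    (hτneg : ∀ t, τ (-t) = - τ t) (hτc : ∀ t, c (τ t) (-(τ t)) = 1)
    (hcomm : ∀ t z f, T (τ t) (T z f) = ph (-(t * β z)) • T z (T (τ t) f))
    (hβ0 : β 0 = 0) (hα0 : α 0 = 0) (hατ : ∀ t, α (τ t) = t)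
    {C : ℝ} (hC : 0 ≤ C) (hlip : ∀ t, ‖T (τ t) g - g‖ ≤ C * |t|)
    {g1 γ1 : H} (hA : ∀ z, ⟪g1, T z γ⟫_ℂ = ⟪g, T z γ1⟫_ℂ + (α z : ℂ) * ⟪g, T z γ⟫_ℂ) : False := by
  classical
  have hApos := h.posA
  -- motion of the dual window
  have hlipγ : ∀ t, ‖T (τ t) γ - γ‖ ≤ A⁻¹ * C * |t| := by
    intro t
    have h1 := h.dual_move hT hd (τ t) (fun k f => ⟨_, norm_ph _, hcomm t (L k) f⟩)
    refine h1.trans ?_
    rw [mul_assoc]
    exact mul_le_mul_of_nonneg_left (hlip t) (by positivity)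
  -- adjoint of translations
  have hadj : ∀ t (u v : H), ⟪T (τ (-t)) u, v⟫_ℂ = ⟪u, T (τ t) v⟫_ℂ := by
    intro t u v
    rw [hT.adj, hτc, inv_one, one_mul, hτneg, neg_neg]
  have hadj' : ∀ t (u v : H), ⟪T (τ t) u, v⟫_ℂ = ⟪u, T (τ (-t)) v⟫_ℂ := by
    intro t u v
    have := hadj (-t) u v
    rwa [neg_neg] at this
  -- difference quotients
  set tn : ℕ → ℝ := fun n => 1 / ((n : ℝ) + 1) with htn
  have htpos : ∀ n, 0 < tn n := fun n => by simp only [htn]; positivity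
  have htlim : Tendsto tn (UU : Filter ℕ) (𝓝 0) :=
    tendsto_one_div_add_atTop_nhds_zero_nat.mono_left UU_le
  set Δ : ℕ → H → H := fun n v => ((1 / (2 * tn n) : ℝ) : ℂ) • (T (τ (tn n)) v - T (τ (-tn n)) v)
    with hΔ
  have hΔb : ∀ (v : H) (D : ℝ), (∀ t, ‖T (τ t) v - v‖ ≤ D * |t|) → ∀ n, ‖Δ n v‖ ≤ D := by
    intro v D hD n
    simp only [hΔ]
    rw [norm_smul, Complex.norm_real, Real.norm_of_nonneg (by have := htpos n; positivity)]
    have h1 : ‖T (τ (tn n)) v - T (τ (-tn n)) v‖ ≤ 2 * (D * tn n) := by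
      have e : T (τ (tn n)) v - T (τ (-tn n)) v = (T (τ (tn n)) v - v) - (T (τ (-tn n)) v - v) := by
        abel
      rw [e]
      refine (norm_sub_le _ _).trans ?_
      have h2 := hD (tn n)
      have h3 := hD (-tn n)
      rw [abs_neg] at h3
      rw [abs_of_pos (htpos n)] at h2 h3
      linarith
    have := htpos n
    calc 1 / (2 * tn n) * ‖T (τ (tn n)) v - T (τ (-tn n)) v‖
        ≤ 1 / (2 * tn n) * (2 * (D * tn n)) := by gcongr
      _ = D := by field_simp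
  obtain ⟨q, hq1, hq2⟩ := exists_weak_lim (fun n => Δ n g) (hΔb g C hlip)
  obtain ⟨q', hq1', hq2'⟩ := exists_weak_lim (fun n => Δ n γ) (hΔb γ (A⁻¹ * C) hlipγ)
  -- (b)
  have hb : ∀ k, ⟪T (L k) g, q'⟫_ℂ = - ⟪T (L k) q, γ⟫_ℂ := by
    intro k
    set z := L k with hz
    have hlim1 := hq1' (T z g)
    have hlim2 : Tendsto (fun n => ⟪T z (Δ n g), γ⟫_ℂ) (UU : Filter ℕ) (𝓝 ⟪T z q, γ⟫_ℂ) := by
      simp_rw [hT.adj]
      exact (hq2 _).const_mul _
    have hsum := hlim1.add hlim2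
    have hzero : Tendsto (fun n => ⟪T z g, Δ n γ⟫_ℂ + ⟪T z (Δ n g), γ⟫_ℂ) (UU : Filter ℕ) (𝓝 0) := by
      have hbd : ∀ n, ‖⟪T z g, Δ n γ⟫_ℂ + ⟪T z (Δ n g), γ⟫_ℂ‖ ≤
          2 * Real.pi * |β z| * C * ‖γ‖ * tn n := by
        intro n
        set t := tn n with ht
        have ht0 : 0 < t := htpos n
        have e1 : ⟪T z g, T (τ t) γ⟫_ℂ = conj (ph (t * β z)) * ⟪T z (T (τ (-t)) g), γ⟫_ℂ := by
          rw [← hadj, hcomm, inner_smul_left]
          congr 3; ring
        have e2 : ⟪T z g, T (τ (-t)) γ⟫_ℂ = conj (ph (-(t * β z))) * ⟪T z (T (τ t) g), γ⟫_ℂ := by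
          rw [← hadj', hcomm, inner_smul_left]
        have e3 : ⟪T z g, Δ n γ⟫_ℂ + ⟪T z (Δ n g), γ⟫_ℂ = ((1 / (2 * t) : ℝ) : ℂ) *
            (conj (ph (t * β z) - 1) * ⟪T z (T (τ (-t)) g), γ⟫_ℂ -
              conj (ph (-(t * β z)) - 1) * ⟪T z (T (τ t) g), γ⟫_ℂ) := by
          simp only [hΔ]
          rw [inner_smul_right, inner_sub_right, map_smul, inner_smul_left, map_sub, inner_sub_left,
            Complex.conj_ofReal, ← ht, e1, e2, map_sub, map_sub, map_one]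
          ring
        rcases eq_or_ne k 0 with hk | hk
        · have hz0 : z = 0 := by rw [hz, hk, map_zero]
          rw [e3, hz0, hβ0]
          simp only [mul_zero, neg_zero, ph_zero, sub_self, map_zero, zero_mul, norm_zero]
          positivity
        · have h0 : ⟪T z g, γ⟫_ℂ = 0 := by
            rw [← inner_conj_symm, hd.zero k hk, map_zero]
          have hs : ∀ s : ℝ, ‖⟪T z (T (τ s) g), γ⟫_ℂ‖ ≤ C * |s| * ‖γ‖ := by
            intro s
            have : ⟪T z (T (τ s) g), γ⟫_ℂ = ⟪T z (T (τ s) g - g), γ⟫_ℂ := by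
              rw [map_sub, inner_sub_left, h0, sub_zero]
            rw [this]
            refine (norm_inner_le_norm _ _).trans ?_
            rw [LinearIsometry.norm_map]
            gcongr
            exact hlip s
          have hp1 : ‖conj (ph (t * β z) - 1)‖ ≤ 2 * Real.pi * (t * |β z|) := by
            rw [RCLike.norm_conj]
            refine (norm_ph_sub_one _).trans (le_of_eq ?_)
            rw [abs_mul, abs_of_pos ht0]
          have hp2 : ‖conj (ph (-(t * β z)) - 1)‖ ≤ 2 * Real.pi * (t * |β z|) := by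
            rw [RCLike.norm_conj]
            refine (norm_ph_sub_one _).trans (le_of_eq ?_)
            rw [abs_neg, abs_mul, abs_of_pos ht0]
          have h1 := hs (-t)
          have h2 := hs t
          rw [abs_neg] at h1
          rw [abs_of_pos ht0] at h1 h2
          rw [e3, norm_mul, Complex.norm_real, Real.norm_of_nonneg (by positivity)]
          calc _ ≤ 1 / (2 * t) * (2 * Real.pi * (t * |β z|) * (C * t * ‖γ‖) +
                2 * Real.pi * (t * |β z|) * (C * t * ‖γ‖)) := by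
                gcongr
                refine (norm_sub_le _ _).trans ?_
                rw [norm_mul, norm_mul]
                gcongr
            _ = 2 * Real.pi * |β z| * C * ‖γ‖ * t := by
                field_simp
                ring
      refine squeeze_zero_norm hbd ?_
      have := htlim.const_mul (2 * Real.pi * |β z| * C * ‖γ‖)
      rwa [mul_zero] at this
    have := tendsto_nhds_unique hsum hzero
    exact eq_neg_of_add_eq_zero_left this
  -- the orthogonality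
  have horth : ∀ k, k ≠ 0 → ⟪g, T (L k) γ⟫_ℂ = 0 := by
    intro k hk
    have h1 := hd.inner_eq hT k 0
    rw [if_neg hk, map_zero, hT.zero] at h1
    rw [← inner_conj_symm, h1, map_zero]
  -- first sum
  have hsum1 : HasSum (fun k => -(⟪T (L k) q, γ⟫_ℂ * ⟪g, T (L k) γ1⟫_ℂ)) ⟪g1, q'⟫_ℂ := by
    have h1 := h.hasSum_inner hT hd g1 q'
    refine hasSum_congr_fn' h1 fun k => ?_
    have h2 : ⟪g1, T (L k) γ⟫_ℂ = ⟪g, T (L k) γ1⟫_ℂ := by
      rw [hA]
      rcases eq_or_ne k 0 with hk | hk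
      · rw [hk, map_zero, hα0]; simp
      · rw [horth k hk]; simp
    rw [h2, hb]
    ring
  have hsum2 : HasSum (fun k => ⟪T (L k) q, γ⟫_ℂ * ⟪g, T (L k) γ1⟫_ℂ) ⟪q, γ1⟫_ℂ := by
    have h1 := h.hasSum_inner hT hd q γ1
    have h2 := (Equiv.neg I).hasSum_iff.2 h1
    refine hasSum_congr_fn' h2 fun k => ?_
    simp only [Function.comp, Equiv.neg_apply]
    rw [map_neg, hT.exchange]
  have hcontra1 : ⟪g1, q'⟫_ℂ = - ⟪q, γ1⟫_ℂ := hsum1.unique hsum2.neg
  -- (c)
  have hc : Tendsto (fun n => ⟪g1, Δ n γ⟫_ℂ + ⟪Δ n g, γ1⟫_ℂ) (UU : Filter ℕ)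
      (𝓝 (⟪g1, q'⟫_ℂ + ⟪q, γ1⟫_ℂ)) := (hq1' g1).add (hq2 γ1)
  have hg1 : ⟪g, γ⟫_ℂ = 1 := by
    have := hd.one
    rw [map_zero, hT.zero] at this
    rw [← inner_conj_symm, this, map_one]
  have hc2 : Tendsto (fun n => ⟪g1, Δ n γ⟫_ℂ + ⟪Δ n g, γ1⟫_ℂ) (UU : Filter ℕ) (𝓝 1) := by
    have e : ∀ n, ⟪g1, Δ n γ⟫_ℂ + ⟪Δ n g, γ1⟫_ℂ =
        (1 / 2 : ℂ) * (⟪g, T (τ (tn n)) γ⟫_ℂ + ⟪g, T (τ (-tn n)) γ⟫_ℂ) := by
      intro n
      set t := tn n with ht
      have ht0 : (t : ℂ) ≠ 0 := by exact_mod_cast (htpos n).ne'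
      simp only [hΔ]
      rw [inner_smul_right, inner_sub_right, inner_smul_left, inner_sub_left, ← ht, hA, hA, hατ, hατ,
        hadj', hadj, Complex.conj_ofReal]
      push_cast
      field_simp
      ring
    have hs : ∀ ε : ℝ, |ε| ≤ 1 → Tendsto (fun n => ⟪g, T (τ (ε * tn n)) γ⟫_ℂ) (UU : Filter ℕ)
        (𝓝 ⟪g, γ⟫_ℂ) := by
      intro ε hε
      rw [tendsto_iff_norm_sub_tendsto_zero]
      have hbd : ∀ n, ‖⟪g, T (τ (ε * tn n)) γ⟫_ℂ - ⟪g, γ⟫_ℂ‖ ≤ ‖g‖ * (A⁻¹ * C) * tn n := by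
        intro n
        rw [← inner_sub_right]
        refine (norm_inner_le_norm _ _).trans ?_
        rw [mul_assoc]
        gcongr
        refine (hlipγ _).trans ?_
        gcongr
        rw [abs_mul, abs_of_pos (htpos n)]
        have := htpos n
        nlinarith
      refine squeeze_zero (fun n => norm_nonneg _) hbd ?_
      have := htlim.const_mul (‖g‖ * (A⁻¹ * C))
      rwa [mul_zero] at this
    have h1 := hs 1 (by norm_num)
    have h2 := hs (-1) (by norm_num)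
    simp only [one_mul, neg_mul] at h1 h2
    have h3 := (h1.add h2).const_mul (1 / 2 : ℂ)
    rw [hg1] at h3
    simp_rw [e]
    convert! h3 using 1
    norm_num
  have h1 := tendsto_nhds_unique hc hc2
  rw [hcontra1, neg_add_cancel] at h1
  exact zero_ne_one h1

end Pool.Agent.Y275.BLT
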