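import Pool.Agent.Y275.BLT.Conc

/-! # Weak derivatives and translations -/

set_option autoImplicit false

open Topology Filter Set ComplexConjugate MeasureTheory
open scoped InnerProductSpace ENNReal ContDiff

namespace Pool.Agent.Y275.BLT

variable {d : ℕ}

lemma sub_single_neg (j : Fin d) (s : ℝ) (x : V d) :
    x - Pi.single j (-s) = x + s • (Pi.single j (1:ℝ) : V d) := by
  ext k
  simp only [Pi.sub_apply, Pi.add_apply, Pi.smul_apply, smul_eq_mul]
  by_cases hk : k = j
  · subst hk; simp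
  · simp [hk]

lemma hasDerivAt_pair (j : Fin d) (g : V d → ℂ) (hg : MemLp g 2 volume) (ψ : V d → ℂ)
    (hψ : ContDiff ℝ ∞ ψ) (hc : HasCompactSupport ψ) (s₀ : ℝ) :
    HasDerivAt (fun s : ℝ => ∫ x, g x * ψ (x + s • (Pi.single j (1:ℝ) : V d)))
      (∫ x, g x * fderiv ℝ ψ (x + s₀ • (Pi.single j (1:ℝ) : V d)) (Pi.single j (1:ℝ) : V d)) s₀ := by
  set e : V d := Pi.single j (1:ℝ) with he
  have hen : ‖e‖ = 1 := by
    rw [he, Pi.norm_single]; simp
  have hψc : Continuous ψ := hψ.continuous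
  have hψ1 : ContDiff ℝ 1 ψ := hψ.of_le (by exact_mod_cast le_top)
  have hDc : Continuous fun x => fderiv ℝ ψ x e :=
    (hψ1.continuous_fderiv one_ne_zero).clm_apply continuous_const
  have hDs : HasCompactSupport fun x => fderiv ℝ ψ x e := hc.fderiv_apply ℝ e
  obtain ⟨C, hC⟩ := hDs.exists_bound_of_continuous hDc
  obtain ⟨R, hR⟩ := hc.isCompact.isBounded.subset_closedBall (0 : V d)
  set K : Set (V d) := Metric.closedBall 0 (R + |s₀| + 1) with hK
  have hKc : IsCompact K := isCompact_closedBall _ _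
  have hgloc : IntegrableOn g K volume :=
    (hg.locallyIntegrable (by norm_num)).integrableOn_isCompact hKc
  have hout : ∀ x s, s ∈ Metric.ball s₀ 1 → x ∉ K → x + s • e ∉ tsupport ψ := by
    intro x s hs hx hmem
    apply hx
    have h1 := hR hmem
    rw [Metric.mem_closedBall, dist_zero_right] at h1 ⊢
    have h2 : ‖x‖ ≤ ‖x + s • e‖ + ‖s • e‖ := by
      have := norm_sub_le (x + s • e) (s • e)
      rwa [add_sub_cancel_right] at this
    rw [norm_smul, hen, mul_one, Real.norm_eq_abs] at h2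
    have h3 : |s| ≤ |s₀| + 1 := by
      rw [Metric.mem_ball, Real.dist_eq] at hs
      have := abs_sub_abs_le_abs_sub s s₀
      linarith
    linarith
  have hsh : ∀ s : ℝ, Continuous fun x : V d => x + s • e := fun s => by fun_prop
  have hint0 : Integrable (fun x => g x * ψ (x + s₀ • e)) volume := by
    obtain ⟨C', hC'⟩ := hc.exists_bound_of_continuous hψc
    have h1 : Integrable (K.indicator fun x => g x * ψ (x + s₀ • e)) volume := by
      rw [integrable_indicator_iff hKc.measurableSet]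
      refine Integrable.mul_bdd (c := C') hgloc ?_ ?_
      · exact (hψc.comp (hsh s₀)).aestronglyMeasurable
      · exact Eventually.of_forall fun x => hC' _
    refine h1.congr (Eventually.of_forall fun x => ?_)
    by_cases hx : x ∈ K
    · simp [hx]
    · have := hout x s₀ (Metric.mem_ball_self one_pos) hx
      simp [hx, image_eq_zero_of_notMem_tsupport this]
  refine (hasDerivAt_integral_of_dominated_loc_of_deriv_le (μ := volume)
    (F := fun s x => g x * ψ (x + s • e)) (F' := fun s x => g x * fderiv ℝ ψ (x + s • e) e)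
    (s := Metric.ball s₀ 1) (bound := K.indicator fun x => ‖g x‖ * C)
    (Metric.ball_mem_nhds s₀ one_pos) ?_ hint0 ?_ ?_ ?_ ?_).2
  · exact Eventually.of_forall fun s => hg.1.mul (hψc.comp (hsh s)).aestronglyMeasurable
  · exact hg.1.mul (hDc.comp (hsh s₀)).aestronglyMeasurable
  · refine Eventually.of_forall fun x s hs => ?_
    by_cases hx : x ∈ K
    · rw [indicator_of_mem hx, norm_mul]
      gcongr
      exact hC _
    · rw [indicator_of_notMem hx]
      have h1 := hout x s hs hx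
      have h2 : fderiv ℝ ψ (x + s • e) = 0 := by
        by_contra hne
        exact h1 (support_fderiv_subset ℝ hne)
      rw [h2]
      simp
  · rw [integrable_indicator_iff hKc.measurableSet]
    exact hgloc.norm.mul_const _
  · refine Eventually.of_forall fun x s _ => ?_
    have h1 : HasDerivAt (fun s : ℝ => x + s • e) e s := by
      have := ((hasDerivAt_id s).smul_const e).const_add x
      simpa using this
    have h2 := (hψ1.differentiable one_ne_zero (x + s • e)).hasFDerivAt.comp_hasDerivAt s h1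
    exact h2.const_mul (g x)

lemma norm_le_of_dense (S : Set (Hs d)) (hS : Dense S) (v : Hs d) {K : ℝ} (hK : 0 ≤ K)
    (h : ∀ Φ ∈ S, ‖⟪Φ, v⟫_ℂ‖ ≤ K * ‖Φ‖) : ‖v‖ ≤ K := by
  have hcl : IsClosed {Φ : Hs d | ‖⟪Φ, v⟫_ℂ‖ ≤ K * ‖Φ‖} := by
    apply isClosed_le <;> fun_prop
  have h1 : v ∈ closure {Φ : Hs d | ‖⟪Φ, v⟫_ℂ‖ ≤ K * ‖Φ‖} := closure_mono h (hS v)
  rw [hcl.closure_eq] at h1
  change ‖⟪v, v⟫_ℂ‖ ≤ K * ‖v‖ at h1
  rw [inner_self_eq_norm_sq_to_K] at h1
  simp only [norm_pow, Complex.coe_algebraMap, Complex.norm_real, norm_norm] at h1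
  by_cases h0 : ‖v‖ = 0
  · rw [h0]; exact hK
  · have h2 : 0 < ‖v‖ := lt_of_le_of_ne (norm_nonneg _) (Ne.symm h0)
    nlinarith

lemma lip_trans (j : Fin d) (g h : V d → ℂ) (hg : MemLp g 2 volume) (hh : MemLp h 2 volume)
    (hw : ∀ φ : V d → ℂ, ContDiff ℝ ((⊤ : ℕ∞) : WithTop ℕ∞) φ → HasCompactSupport φ →
      ∫ x, g x * fderiv ℝ φ x (Pi.single j (1:ℝ) : V d) = - ∫ x, h x * φ x) (t : ℝ) :
    ‖TF (Pi.single j t, 0) hg.toLp - hg.toLp‖ ≤ ‖hh.toLp‖ * |t| := by
  refine norm_le_of_dense _ (MeasureTheory.Lp.dense_hasCompactSupport_contDiff (F := ℂ)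
    (μ := (volume : Measure (V d))) (p := 2) (by norm_num)) _ (by positivity) ?_
  rintro Φ ⟨φ, hΦφ, hφc, hφs⟩
  set ψ : V d → ℂ := fun x => conj (φ x) with hψ
  have hψs : ContDiff ℝ ∞ ψ := Complex.conjCLE.contDiff.comp hφs
  have hψc : HasCompactSupport ψ := hφc.comp_left (map_zero _)
  set e : V d := Pi.single j (1:ℝ) with he
  -- pairing with translates
  have hpair : ∀ (u : V d → ℂ) (hu : MemLp u 2 volume) (s : ℝ),
      ⟪TF (Pi.single j (-s), 0) Φ, hu.toLp⟫_ℂ = ∫ x, u x * ψ (x + s • e) := by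
    intro u hu s
    rw [inner_Hs]
    apply integral_congr_ae
    filter_upwards [TF_ae (Pi.single j (-s), 0) Φ, tf_ae (Pi.single j (-s)) 0 hΦφ, hu.coeFn_toLp]
      with x h1 h2 h3
    rw [h1, h2, h3]
    unfold tf
    simp only [Pi.zero_apply, zero_mul, Finset.sum_const_zero, ph_zero, one_mul, sub_single_neg]
    rw [mul_comm]
  have hsh : ∀ s : ℝ, ContDiff ℝ ∞ fun x : V d => x + s • e := fun s => by fun_prop
  have hder : ∀ s : ℝ, HasDerivAt (fun s : ℝ => ⟪TF (Pi.single j (-s), 0) Φ, hg.toLp⟫_ℂ)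
      (-⟪TF (Pi.single j (-s), 0) Φ, hh.toLp⟫_ℂ) s := by
    intro s
    have h1 := hasDerivAt_pair j g hg ψ hψs hψc s
    have h2 : (fun s : ℝ => ⟪TF (Pi.single j (-s), 0) Φ, hg.toLp⟫_ℂ) =
        fun s : ℝ => ∫ x, g x * ψ (x + s • (Pi.single j (1:ℝ) : V d)) := by
      funext s; exact hpair g hg s
    rw [h2]
    refine h1.congr_deriv ?_
    rw [hpair h hh s, ← hw (fun x => ψ (x + s • e)) (hψs.comp (hsh s)) ?_]
    · apply integral_congr_ae
      refine Eventually.of_forall fun x => ?_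
      simp only
      congr 1
      have h3 : fderiv ℝ (fun x => ψ (x + s • e)) x = fderiv ℝ ψ (x + s • e) :=
        fderiv_comp_add_right _
      rw [h3]
    · exact hψc.comp_homeomorph (Homeomorph.addRight (s • e))
  have hmv := Convex.norm_image_sub_le_of_norm_hasDerivWithin_le (s := (univ : Set ℝ))
    (C := ‖hh.toLp‖ * ‖Φ‖) (x := 0) (y := t)
    (fun s _ => (hder s).hasDerivWithinAt) (fun s _ => by
      rw [norm_neg]
      refine (norm_inner_le_norm _ _).trans ?_
      rw [LinearIsometry.norm_map, mul_comm]) convex_univ trivial trivial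
  have hadj : ⟪Φ, TF (Pi.single j t, 0) hg.toLp⟫_ℂ = ⟪TF (Pi.single j (-t), 0) Φ, hg.toLp⟫_ℂ := by
    rw [prep.adj]
    have e1 : -((Pi.single j (-t), 0) : V d × V d) = (Pi.single j t, 0) := by
      rw [Prod.neg_mk, neg_zero, ← Pi.single_neg, neg_neg]
    rw [e1]
    have e2 : cc ((Pi.single j (-t), 0) : V d × V d) (Pi.single j t, 0) = 1 := by
      unfold cc; simp [ph_zero]
    rw [e2, inv_one, one_mul]
  have h0 : TF ((Pi.single j (-0), 0) : V d × V d) Φ = Φ := by
    have : ((Pi.single j (-0), 0) : V d × V d) = 0 := by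
      rw [neg_zero, Pi.single_zero]; rfl
    rw [this, prep.zero]
  rw [inner_sub_right, hadj]
  have h5 : ⟪TF ((Pi.single j (-0), 0) : V d × V d) Φ, hg.toLp⟫_ℂ = ⟪Φ, hg.toLp⟫_ℂ := by rw [h0]
  rw [← h5]
  refine hmv.trans (le_of_eq ?_)
  rw [sub_zero, Real.norm_eq_abs]
  ring

end Pool.Agent.Y275.BLT
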